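import Mathlib
import Pool.Agent.W5h23.G.Maps

set_option autoImplicit false

/-!
# Benford's law in base six for all trajectories of the Collatz function

Both branches of the Collatz function, `n / 2` and `3 n + 1`, change `log_6 n` by `- log_6 2` modulo `1`
(up to `O(1 / n)`). Hence the trajectories follow the rotation by `log_6 2`, whose quality of
approximation is controlled by the linear forms in `log 2` and `log 3`. The small terms, at which the
error accumulates, are few as long as the terms are different. This gives a law for every trajectory,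
with a power saving in the number of the terms: for example, the proportion of the terms with leading
digit `e` in base six is `log_6 (1 + 1 / e) + O(K ^ (-1/28))`, `K` being the number of terms. It holds
for the terms before `1` for every `n` which reaches `1`, so that an exception `l(n) > n` must satisfy it
with precision `n ^ (-1/28)`.
-/

namespace Pool.Agent.Results.MP_e43fce_nt.BenfordBaseSix

/-- The Collatz function. -/
def C (n : ℕ) : ℕ := if n % 2 = 0 then n / 2 else 3 * n + 1

/-- The total stopping time `l(n)` (meaningful if `n` reaches `1`). -/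
noncomputable def l (n : ℕ) : ℕ := sInf {k | C^[k] n = 1}

/-- The base six mantissa (the fractional part of `log_6`) of `m` is in `[A, B)`. -/
def Mantissa (A B : ℝ) (m : ℕ) : Prop :=
  A ≤ Int.fract (Real.logb 6 m) ∧ Int.fract (Real.logb 6 m) < B

open Classical in
/-- There is a constant `c` such that for all `0 ≤ A ≤ B ≤ 1` and every `n ≥ 1`: (1) if the terms
`n, C n, ..., C ^ (K-1) n` are different then the number of those with a base six mantissa in `[A, B)`
differs from `(B - A) K` by at most `c K ^ (27/28)`; (2) if `n` reaches `1` then the number of `i < l(n)`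
for which `C ^ i n` has a base six mantissa in `[A, B)` differs from `(B - A) l(n)` by at most
`c l(n) ^ (27/28)`. -/
theorem result : ∃ c : ℝ, ∀ A B : ℝ, 0 ≤ A → A ≤ B → B ≤ 1 → ∀ n : ℕ, 0 < n →
    (∀ K : ℕ, Set.InjOn (fun i => C^[i] n) (Set.Iio K) →
      |(((Finset.range K).filter fun i => Mantissa A B (C^[i] n)).card : ℝ) - (B - A) * K| ≤
        c * (K : ℝ) ^ (27 / 28 : ℝ)) ∧
    ((∃ k, C^[k] n = 1) →
      |(((Finset.range (l n)).filter fun i => Mantissa A B (C^[i] n)).card : ℝ) - (B - A) * l n| ≤
        c * (l n : ℝ) ^ (27 / 28 : ℝ)) := by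
  obtain ⟨c, hc⟩ := Pool.Agent.W5h23.G.benford_Col
  refine ⟨c, ?_⟩
  intro A B hA hAB hB n hn
  have h1 : ∀ K : ℕ, Set.InjOn (fun i => C^[i] n) (Set.Iio K) →
      |(((Finset.range K).filter fun i => Mantissa A B (C^[i] n)).card : ℝ) - (B - A) * K| ≤
        c * (K : ℝ) ^ (27 / 28 : ℝ) := by
    intro K hK
    convert hc n K hn hK A B hA hAB hB using 6
    exact Iff.rfl
  refine ⟨h1, ?_⟩
  intro hex
  apply h1
  have hmin : C^[l n] n = 1 := Nat.sInf_mem (s := {k | C^[k] n = 1}) hex
  have hlt : ∀ i j : ℕ, i < j → j < l n → C^[i] n ≠ C^[j] n := by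
    intro i j hij hj h
    have h2 : C^[(l n - j) + i] n = 1 := by
      rw [Function.iterate_add_apply, h, ← Function.iterate_add_apply, Nat.sub_add_cancel hj.le]
      exact hmin
    have h3 : l n ≤ (l n - j) + i := Nat.sInf_le h2
    omega
  intro i hi j hj hij
  rcases lt_trichotomy i j with h | h | h
  · exact absurd hij (hlt i j h hj)
  · exact h
  · exact absurd hij.symm (hlt j i h hi)

end Pool.Agent.Results.MP_e43fce_nt.BenfordBaseSix
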