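import Mathlib
import Pool.Agent.W5h25.DS.E

/-!
# Digit sums along almost all Collatz trajectories

Gelfond's theorem (the sum of the digits in base `b` is equidistributed modulo `m` in every residue
class, for `m` prime to `b - 1`), in the form of Bésineau and Kim for several pairwise coprime bases,
along Collatz trajectories: for almost all `n` which reach `1` (natural density) the digit sums of the
`l(n)` terms of the trajectory before `1` are jointly equidistributed modulo the given moduli, in every
residue class modulo `q` and in every initial segment, up to `ε l(n)`. For instance half of the terms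
have an even number of binary ones. For all `n`, whether they reach `1` or not, the same holds for the
initial segments of the trajectory whose terms are at least `n ^ c`, for every `c > 0`. The general
result is for products of strongly multiplicative functions in pairwise coprime bases, twisted by a
linear phase.

The proof. (1) Let `f` be strongly `b`-multiplicative of modulus `1`, and not of the form `κ ^ n`. Then
the mean value of `f (x + r) * star (f x)` over `b ^ k` consecutive `x` is small for most `r`, when `k`
is large: the correlations satisfy a recursion in `r`, and the mean value over `r` contracts at every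
step. (2) Let `F` be a function of modulus at most `1` whose differences `F (x + r) * star (F x)` agree
with a periodic function, with a period prime to `b`, except for few `x`: a linear phase, a strongly
multiplicative function in a base prime to `b`, or a product of such functions. By the Chinese remainder
theorem `f F` has small correlations too, hence (van der Corput) small averages over most progressions
`x, x + D, …, x + (H - 1) D`, as soon as `H` is large. (3) By the sampling principle of the starting
files (`MP_2d22f3_nt.SamplingPrinciple`) and `LiouvilleAlongTrajectories` almost all trajectories take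
small averages of functions with this property. (4) Finite Fourier analysis.
-/

set_option autoImplicit false

namespace Pool.Agent.Results.MP_e43fce_nt.DigitSums

open Filter Topology

/-- the Collatz function -/
def C (n : ℕ) : ℕ := if n % 2 = 0 then n / 2 else 3 * n + 1

/-- `l` is the total stopping time of `n` -/
def IsTotalStoppingTime (n l : ℕ) : Prop := C^[l] n = 1 ∧ ∀ j < l, C^[j] n ≠ 1

/-- the positive integers with the property `P` have the natural density `δ` -/
def HasDensity (P : ℕ → Prop) (δ : ℝ) : Prop :=
  Tendsto (fun N : ℕ => ({n : ℕ | 1 ≤ n ∧ n ≤ N ∧ P n}.ncard : ℝ) / N) atTop (𝓝 δ)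

/-- the sum of `g (C^k n)` over the `k < s` with `C^k n ≡ a mod q` (`a < q`) -/
noncomputable def classSum (g : ℕ → ℂ) (q a s n : ℕ) : ℂ :=
  ∑ k ∈ (Finset.range s).filter (fun k => C^[k] n % q = a), g (C^[k] n)

/-- the sum of the digits of `n` in base `b` -/
def digitSum (b n : ℕ) : ℕ := (Nat.digits b n).sum

/-- the number of `k < s` with `C^k n ≡ a mod q` for which the sum of the digits of `C^k n` in base
`b i` is `≡ r i mod m i` for all `i` (`a < q`, `r i < m i`) -/
def digitCount {t : ℕ} (b m r : Fin t → ℕ) (q a s n : ℕ) : ℕ :=
  ((Finset.range s).filter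
    (fun k => C^[k] n % q = a ∧ ∀ i, digitSum (b i) (C^[k] n) % m i = r i)).card

/-- the number of `k < s` with `C^k n ≡ a mod q` (`a < q`) -/
def classCount (q a s n : ℕ) : ℕ := ((Finset.range s).filter (fun k => C^[k] n % q = a)).card

/-- `f` is strongly `b`-multiplicative with values of modulus `1` -/
def StronglyMultiplicative (b : ℕ) (f : ℕ → ℂ) : Prop :=
  (∀ n, ‖f n‖ = 1) ∧ ∀ n d, d < b → f (b * n + d) = f n * f d

/-- Let `b₁, …, b_t ≥ 2` be pairwise coprime. (1) Let `f i` be strongly `b i`-multiplicative with values
of modulus `1`, and `‖κ‖ = 1`; suppose that some `f i` is not of the form `c ^ n`, or that `κ` is not a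
root of unity. Let `g n = f₁ n ⋯ f_t n κ ^ n`. Then the `n` which reach `1`, after `l = l(n)` steps, and
for which the sum of the values of `g` at the terms in some residue class modulo `q` of some initial
segment of the trajectory exceeds `ε l(n)` in absolute value have density `0`; and for every `c > 0` the
`n`, whether they reach `1` or not, for which the sum of the values of `g` at the terms in some residue
class modulo `q` of some initial segment all of whose terms are at least `n ^ c` exceeds `ε log n` in
absolute value have density `0`. (2) Let `m i ≥ 1` be prime to `b i - 1`. Then the same two sets have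
density `0` when the sum is replaced by the difference between the number of terms in the class whose
digit sum in base `b i` is `≡ r i mod m i` for all `i`, and `1 / (m₁ ⋯ m_t)` times the number of all
terms in the class, for some `r`. -/
theorem result (t : ℕ) (b : Fin t → ℕ) (hb : ∀ i, 2 ≤ b i)
    (hco : ∀ i j, i ≠ j → (b i).Coprime (b j)) (q : ℕ) (hq : 0 < q) (ε : ℝ) (hε : 0 < ε) :
    (∀ (f : Fin t → ℕ → ℂ) (κ : ℂ), (∀ i, StronglyMultiplicative (b i) (f i)) → ‖κ‖ = 1 →
      ((∃ i, ∀ c : ℂ, ∃ n, f i n ≠ c ^ n) ∨ ∀ D : ℕ, 0 < D → κ ^ D ≠ 1) →
      HasDensity (fun n => ∃ l : ℕ, IsTotalStoppingTime n l ∧ ∃ s ≤ l, ∃ a < q,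
        ε * l < ‖classSum (fun n => (∏ i, f i n) * κ ^ n) q a s n‖) 0 ∧
      ∀ c : ℝ, 0 < c → HasDensity (fun n => ∃ s : ℕ,
        (∀ k < s, (n : ℝ) ^ c ≤ ((C^[k] n : ℕ) : ℝ)) ∧ ∃ a < q,
        ε * Real.log n < ‖classSum (fun n => (∏ i, f i n) * κ ^ n) q a s n‖) 0) ∧
    (∀ m : Fin t → ℕ, (∀ i, 0 < m i) → (∀ i, (m i).Coprime (b i - 1)) →
      HasDensity (fun n => ∃ l : ℕ, IsTotalStoppingTime n l ∧ ∃ s ≤ l, ∃ a < q,
        ∃ r : Fin t → ℕ, (∀ i, r i < m i) ∧
        ε * l < |(digitCount b m r q a s n : ℝ) - 1 / (∏ i, (m i : ℝ)) * classCount q a s n|) 0 ∧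
      ∀ c : ℝ, 0 < c → HasDensity (fun n => ∃ s : ℕ,
        (∀ k < s, (n : ℝ) ^ c ≤ ((C^[k] n : ℕ) : ℝ)) ∧ ∃ a < q,
        ∃ r : Fin t → ℕ, (∀ i, r i < m i) ∧
        ε * Real.log n <
          |(digitCount b m r q a s n : ℝ) - 1 / (∏ i, (m i : ℝ)) * classCount q a s n|) 0) := by
  refine ⟨fun f κ hf hκ h => ?_, fun m hm hmb => ?_⟩
  · refine Pool.Agent.W5h25.DS.final (Pool.Agent.W5h25.DS.sac_family b hb hco f hf hκ ?_) q hq ε hε
    rcases h with ⟨i, hi⟩ | h
    · refine Or.inl ⟨i, ?_⟩
      rintro ⟨c, hc⟩
      obtain ⟨n, hn⟩ := hi c
      exact hn (hc n)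
    · exact Or.inr h
  · exact Pool.Agent.W5h25.DS.final_ds b m hb hco hm hmb q hq ε hε

end Pool.Agent.Results.MP_e43fce_nt.DigitSums
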