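import Mathlib
import Pool.Agent.W5h47.LT.D

/-!
# The parity of the number of prime factors along almost all Collatz trajectories

For almost all `n` which reach `1` (natural density) the `l(n)` terms of the Collatz trajectory before
`1` are split evenly between the integers with an even and the integers with an odd number of prime
factors: in every residue class, and in every initial segment of the trajectory, the two numbers of
terms differ by at most `ε l(n)`. The same holds for the squarefree terms (the Möbius function). For
all `n`, whether they reach `1` or not, the same holds for the initial segments of the trajectory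
whose terms are at least `n ^ c`, for every `c > 0`.

The proof. (1) A function on the integers which is orthogonal to all almost locally constant functions
in all residue classes has small averages over most progressions `x, x + D, …, x + (H - 1) D`: divide the
progressions into blocks in all `H` possible ways and take the sign of the sum over the block. The
Liouville function and the Möbius function have this property, by the soft Matomäki-Radziwiłł theorem
of the starting files. (2) By the sampling principle of the starting files
(`MP_2d22f3_nt.SamplingPrinciple`) almost all trajectories of the accelerated map `T` take small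
averages of such functions. (3) The Collatz map has the additional terms `3 x + 1 = 2 T x`, `x` odd;
their contribution is the one of the function `x ↦ - g (T x)`, `x` odd, which has small averages over
progressions too.
-/

set_option autoImplicit false

namespace Pool.Agent.Results.MP_e43fce_nt.LiouvilleAlongTrajectories

open Filter Topology

/-- the Collatz function -/
def C (n : ℕ) : ℕ := if n % 2 = 0 then n / 2 else 3 * n + 1

/-- `l` is the total stopping time of `n` -/
def IsTotalStoppingTime (n l : ℕ) : Prop := C^[l] n = 1 ∧ ∀ j < l, C^[j] n ≠ 1

/-- the positive integers with the property `P` have the natural density `δ` -/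
def HasDensity (P : ℕ → Prop) (δ : ℝ) : Prop :=
  Tendsto (fun N : ℕ => ({n : ℕ | 1 ≤ n ∧ n ≤ N ∧ P n}.ncard : ℝ) / N) atTop (𝓝 δ)

/-- the sum of `g (C^k n)` over the `k < s` with `C^k n ≡ a mod q` (`a < q`) -/
def classSum (g : ℕ → ℤ) (q a s n : ℕ) : ℤ :=
  ∑ k ∈ (Finset.range s).filter (fun k => C^[k] n % q = a), g (C^[k] n)

/-- Let `g` be the Liouville function or the Möbius function. (1) The `n` which reach `1`, after
`l = l(n)` steps, and for which the sum of the values of `g` at the terms in some residue class modulo
`q` of some initial segment of the trajectory exceeds `ε l(n)` in absolute value have density `0`.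
(2) For every `c > 0` the `n` for which the sum of the values of `g` at the terms in some residue class
modulo `q` of some initial segment all of whose terms are at least `n ^ c` exceeds `ε log n` in absolute
value have density `0`. -/
theorem result (g : ℕ → ℤ)
    (hg : g = (fun n => (-1) ^ ArithmeticFunction.cardFactors n) ∨
      g = fun n => ArithmeticFunction.moebius n)
    (q : ℕ) (hq : 0 < q) (ε : ℝ) (hε : 0 < ε) :
    HasDensity (fun n => ∃ l : ℕ, IsTotalStoppingTime n l ∧ ∃ s ≤ l, ∃ a < q,
      ε * l < |(classSum g q a s n : ℝ)|) 0 ∧
    ∀ c : ℝ, 0 < c → HasDensity (fun n => ∃ s : ℕ, (∀ k < s, (n : ℝ) ^ c ≤ ((C^[k] n : ℕ) : ℝ)) ∧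
      ∃ a < q, ε * Real.log n < |(classSum g q a s n : ℝ)|) 0 := by
  rcases hg with rfl | rfl
  · exact Pool.Agent.W5h47.LT.final Pool.Agent.W5h47.LT.cls_lam Pool.Agent.W5h47.LT.dbl_lam q hq ε hε
  · exact Pool.Agent.W5h47.LT.final Pool.Agent.W5h47.LT.cls_mu Pool.Agent.W5h47.LT.dbl_mu q hq ε hε

end Pool.Agent.Results.MP_e43fce_nt.LiouvilleAlongTrajectories
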