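import Mathlib
import Pool.Agent.W5h41.DL.I

/-!
# Mean values of multiplicative functions along almost all Collatz trajectories

For almost all `n` which reach `1` (natural density) every bounded limit periodic function has a mean
value, which does not depend on `n`, over the `l(n)` terms of the Collatz trajectory before `1`. For a
multiplicative function `g` with `|g| ≤ 1` and `∑ |1 - g(p)| / p < ∞`, or `∑ (1 - |g(p)|) / p = ∞` (so
for every multiplicative function with values in `[0, 1]`), it is given by the Euler product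

`(1/3 + 2/3 ∑_{j ≥ 1} g(2^j) 2^{-j}) ∏_{p ≥ 5} (1 - 1/p) ∑_{j ≥ 0} g(p^j) p^{-j}`.

In particular the proportion of squarefree terms is `6 / π²` along almost all trajectories. The same
holds for the terms of size at least `n ^ c`, for almost all `n`, whether they reach `1` or not.

The proof. The terms of almost all trajectories are distributed modulo `M` according to the stationary
distribution (starting files `W38/BF`); sets of small density contain few terms of almost all
trajectories (starting files `R344/SP`). Hence limit periodic functions, that is limits of periodic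
functions for the seminorm `limsup (1/N) ∑_{n ≤ N} |f(n)|`, have a mean value along almost all
trajectories. The stationary distribution is uniform modulo the integers prime to `3`, and the
multiples of `3` have frequency zero. The additional terms `3 x + 1`, `x` odd, of the Collatz map lead
to the factor at the prime `2`. The part of a multiplicative function prime to `3` is approximated by
periodic functions whose period is a product of powers of primes other than `3`, whose means are
computed by the Chinese remainder theorem.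
-/

set_option autoImplicit false

namespace Pool.Agent.Results.MP_e43fce_nt.MultiplicativeMeans

open Filter Topology Finset

/-- the Collatz function -/
def C (n : ℕ) : ℕ := if n % 2 = 0 then n / 2 else 3 * n + 1

/-- `l` is the total stopping time of `n` -/
def IsTotalStoppingTime (n l : ℕ) : Prop := C^[l] n = 1 ∧ ∀ j < l, C^[j] n ≠ 1

/-- the positive integers with the property `P` have the natural density `δ` -/
def HasDensity (P : ℕ → Prop) (δ : ℝ) : Prop :=
  Tendsto (fun N : ℕ => ({n : ℕ | 1 ≤ n ∧ n ≤ N ∧ P n}.ncard : ℝ) / N) atTop (𝓝 δ)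

/-- `g` has the mean value `ρ` along almost all trajectories: (1) the `n` which reach `1`, after
`l = l(n)` steps, such that for some `s ≤ l` the sum of `g - ρ` over the first `s` terms exceeds
`ε l(n)` in absolute value have density `0`; (2) the `n` such that the sum of `g - ρ` over the first `s`
terms exceeds `ε log n` in absolute value for some `s` such that these terms are at least `n ^ c` have
density `0`, for every `c > 0`. -/
def HasMean (g : ℕ → ℂ) (ρ : ℂ) : Prop :=
  (∀ ε : ℝ, 0 < ε → HasDensity (fun n => ∃ l : ℕ, IsTotalStoppingTime n l ∧ ∃ s ≤ l,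
    ε * l < ‖∑ k ∈ range s, (g (C^[k] n) - ρ)‖) 0) ∧
  ∀ c ε : ℝ, 0 < c → 0 < ε → HasDensity (fun n => ∃ s : ℕ,
    (∀ k < s, (n : ℝ) ^ c ≤ ((C^[k] n : ℕ) : ℝ)) ∧
    ε * Real.log n < ‖∑ k ∈ range s, (g (C^[k] n) - ρ)‖) 0

/-- limit periodic functions (in the mean) -/
def LimitPeriodic (g : ℕ → ℂ) : Prop := ∀ η : ℝ, 0 < η → ∃ M : ℕ, 0 < M ∧ ∃ v : ℕ → ℂ, ∃ N₀ : ℕ,
  ∀ N ≥ N₀, ∑ n ∈ Icc 1 N, ‖g n - v (n % M)‖ ≤ η * N

/-- multiplicative functions -/
def Multiplicative (g : ℕ → ℂ) : Prop := g 1 = 1 ∧ ∀ m n : ℕ, m.Coprime n → g (m * n) = g m * g n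

/-- the Euler product over the primes less than `P` -/
noncomputable def product (g : ℕ → ℂ) (P : ℕ) : ℂ :=
  (1 / 3 + 2 / 3 * ∑' j : ℕ, g (2 ^ (j + 1)) / 2 ^ (j + 1)) *
    ∏ p ∈ (range P).filter (fun p => p.Prime ∧ 5 ≤ p), ((1 - 1 / (p : ℂ)) * ∑' j : ℕ, g (p ^ j) / (p : ℂ) ^ j)

theorem hasMean_of {g : ℕ → ℂ} {ρ : ℂ} (h : Pool.Agent.W5h41.DL.CoMean g ρ) : HasMean g ρ := h

/-- (1) Bounded limit periodic functions have a mean value along almost all trajectories.
(2) Multiplicative functions with `|g| ≤ 1` and `∑ |1 - g(p)| / p < ∞` or `∑ (1 - |g(p)|) / p = ∞` have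
a mean value along almost all trajectories; it is the value of the Euler product.
(3) The squarefree terms have the frequency `6 / π²` along almost all trajectories. -/
theorem result :
    (∀ g : ℕ → ℂ, (∀ n, ‖g n‖ ≤ 1) → LimitPeriodic g → ∃ ρ : ℂ, HasMean g ρ) ∧
    (∀ g : ℕ → ℂ, Multiplicative g → (∀ n, ‖g n‖ ≤ 1) →
      (Summable (fun p : ℕ => if p.Prime then ‖1 - g p‖ / (p : ℝ) else 0) ∨
        ¬ Summable (fun p : ℕ => if p.Prime then (1 - ‖g p‖) / (p : ℝ) else 0)) →
      ∃ ρ : ℂ, Tendsto (product g) atTop (𝓝 ρ) ∧ HasMean g ρ) ∧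
    HasMean (fun n => if Squarefree n then 1 else 0) ((6 / Real.pi ^ 2 : ℝ) : ℂ) := by
  refine ⟨fun g hg hlp => ?_, fun g hgm hg hs => ?_, ?_⟩
  · have h1 : Pool.Agent.W5h41.DL.LimPer (fun n => (g n).re) := by
      intro η hη
      obtain ⟨M, hM, v, N₀, hN₀⟩ := hlp η hη
      refine ⟨M, hM, fun r => (v r).re, N₀, fun N hN => le_trans (sum_le_sum fun n _ => ?_) (hN₀ N hN)⟩
      rw [← Complex.sub_re]
      exact Complex.abs_re_le_norm _
    have h2 : Pool.Agent.W5h41.DL.LimPer (fun n => (g n).im) := by
      intro η hη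
      obtain ⟨M, hM, v, N₀, hN₀⟩ := hlp η hη
      refine ⟨M, hM, fun r => (v r).im, N₀, fun N hN => le_trans (sum_le_sum fun n _ => ?_) (hN₀ N hN)⟩
      rw [← Complex.sub_im]
      exact Complex.abs_im_le_norm _
    obtain ⟨a, ha⟩ := Pool.Agent.W5h41.DL.general (fun n => (Complex.abs_re_le_norm _).trans (hg n)) h1
    obtain ⟨b, hb⟩ := Pool.Agent.W5h41.DL.general (fun n => (Complex.abs_im_le_norm _).trans (hg n)) h2
    exact ⟨⟨a, b⟩, hasMean_of (Pool.Agent.W5h41.DL.comean_of_parts hg ha hb)⟩
  · rcases hs with hs | hs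
    · obtain ⟨ρ, h1, h2⟩ := Pool.Agent.W5h41.DL.main_mul hgm hg hs
      exact ⟨ρ, h1, hasMean_of h2⟩
    · obtain ⟨h1, h2⟩ := Pool.Agent.W5h41.DL.main_zero hgm hg hs
      exact ⟨0, h1, hasMean_of h2⟩
  · obtain ⟨ρ, h1, h2⟩ := Pool.Agent.W5h41.DL.main_mul Pool.Agent.W5h41.DL.sf_mul
      Pool.Agent.W5h41.DL.sf_norm Pool.Agent.W5h41.DL.sf_pr
    have h3 := tendsto_nhds_unique h1 Pool.Agent.W5h41.DL.sf_prod
    rw [h3] at h2
    exact hasMean_of h2

end Pool.Agent.Results.MP_e43fce_nt.MultiplicativeMeans
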